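import Mathlib

/-! The number `Δ_F` of a totally imaginary field in finite extensions. -/

set_option autoImplicit false
set_option linter.unusedSectionVars false

namespace Pool.Agent.Q7.IM

open NumberField Module
open scoped Classical ComplexConjugate IntermediateField

/-- `y ^ 2` is a totally negative element of the maximal totally real subfield of `F`, so that
`F₀(y)` is the maximal CM subfield of `F` -/
def CMGen (F : Type) [Field F] [NumberField F] (y : F) : Prop :=
  y ^ 2 ∈ maximalRealSubfield F ∧ ∀ φ : F →+* ℂ, (φ (y ^ 2)).re < 0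

/-- `δ` is the number `Δ_F` -/
def IsDelta (F : Type) [Field F] [NumberField F] (δ : ℂ) : Prop :=
  (∃ (y : F) (hy : CMGen F y) (s : ℂ),
    s ^ 2 = ((Algebra.norm ℚ (⟨y ^ 2, hy.1⟩ : maximalRealSubfield F) : ℚ) : ℂ) ∧
    δ = s ^ finrank (maximalRealSubfield F)⟮y⟯ F) ∨
  ((∀ y : F, ¬ CMGen F y) ∧ δ = 1)

section
variable {F : Type} [Field F] [NumberField F]

theorem im_of_sq {z : ℂ} (h1 : conj (z ^ 2) = z ^ 2) (h2 : (z ^ 2).re < 0) : conj z = -z := by
  have h3 : (z ^ 2).im = 0 := Complex.conj_eq_iff_im.1 h1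
  have h4 : z.re ^ 2 - z.im ^ 2 < 0 := by
    have : (z ^ 2).re = z.re ^ 2 - z.im ^ 2 := by simp [sq]
    rwa [this] at h2
  have h5 : 2 * z.re * z.im = 0 := by
    have : (z ^ 2).im = 2 * z.re * z.im := by simp [sq]; ring
    rwa [this] at h3
  have h6 : z.re = 0 := by
    rcases mul_eq_zero.1 h5 with h | h
    · simpa using h
    · rw [h] at h4
      nlinarith [sq_nonneg z.re]
  apply Complex.ext
  · simp [h6]
  · simp

theorem CMGen.anti {y : F} (h : CMGen F y) (φ : F →+* ℂ) : conj (φ y) = -φ y := by
  refine im_of_sq ?_ ?_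
  · rw [← map_pow]
    exact (mem_maximalRealSubfield_iff _).1 h.1 φ
  · rw [← map_pow]
    exact h.2 φ

theorem CMGen.ne {y : F} (h : CMGen F y) : y ≠ 0 := by
  rintro rfl
  obtain ⟨φ⟩ : Nonempty (F →+* ℂ) := inferInstance
  have := h.2 φ
  simp at this

theorem cmGen_of {y : F} (h0 : y ≠ 0) (h : ∀ φ : F →+* ℂ, conj (φ y) = -φ y) : CMGen F y := by
  have hre : ∀ φ : F →+* ℂ, (φ y).re = 0 := by
    intro φ
    have := congrArg Complex.re (h φ)
    simp at this
    linarith
  refine ⟨(mem_maximalRealSubfield_iff _).2 fun φ => ?_, fun φ => ?_⟩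
  · change conj (φ (y ^ 2)) = φ (y ^ 2)
    rw [map_pow, map_pow, h φ, neg_sq]
  · rw [map_pow]
    have h1 : (φ y ^ 2).re = -(φ y).im ^ 2 := by
      simp [sq, hre φ]
    rw [h1]
    have h2 : (φ y).im ≠ 0 := by
      intro h3
      apply h0
      apply φ.injective
      rw [map_zero]
      exact Complex.ext (hre φ) h3
    have := sq_pos_of_ne_zero h2
    linarith

theorem CMGen.not_mem {y : F} (h : CMGen F y) : y ∉ maximalRealSubfield F := by
  intro h1
  obtain ⟨φ⟩ : Nonempty (F →+* ℂ) := inferInstance
  have h2 : conj (φ y) = φ y := (mem_maximalRealSubfield_iff _).1 h1 φ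
  rw [h.anti φ] at h2
  have h3 : φ y = 0 := by
    have : (2 : ℂ) * φ y = 0 := by linear_combination -h2
    simpa using this
  exact h.ne (φ.injective (by rw [h3, map_zero]))

/-- the degree over the maximal CM subfield -/
theorem CMGen.finrank {y : F} (h : CMGen F y) :
    2 * finrank (maximalRealSubfield F)⟮y⟯ F = finrank (maximalRealSubfield F) F := by
  have hint : IsIntegral (maximalRealSubfield F) y := IsIntegral.of_finite _ _
  have h1 : (minpoly (maximalRealSubfield F) y).natDegree = 2 := by
    apply le_antisymm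
    · have h2 : (Polynomial.X ^ 2 - Polynomial.C (⟨y ^ 2, h.1⟩ : maximalRealSubfield F)).Monic :=
        Polynomial.monic_X_pow_sub_C _ two_ne_zero
      have h3 := minpoly.min (maximalRealSubfield F) y h2 (by
        simp only [map_sub, map_pow, Polynomial.aeval_X, Polynomial.aeval_C]
        exact sub_self _)
      have h4 := Polynomial.natDegree_le_natDegree h3
      rwa [Polynomial.natDegree_X_pow_sub_C] at h4
    · rw [minpoly.two_le_natDegree_iff hint]
      rintro ⟨x, hx⟩
      apply h.not_mem
      rw [← hx]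
      exact x.2
  have h2 := Module.finrank_mul_finrank (maximalRealSubfield F) (maximalRealSubfield F)⟮y⟯ F
  rw [IntermediateField.adjoin.finrank hint, h1] at h2
  exact h2

end

section
variable {K F : Type} [Field K] [NumberField K] [Field F] [NumberField F] [Algebra K F]

theorem real_map {x : K} (h : x ∈ maximalRealSubfield K) :
    algebraMap K F x ∈ maximalRealSubfield F := by
  rw [mem_maximalRealSubfield_iff] at h ⊢
  intro φ
  exact h (φ.comp (algebraMap K F))

theorem CMGen.up {y : K} (h : CMGen K y) : CMGen F (algebraMap K F y) := by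
  refine cmGen_of ?_ fun φ => ?_
  · rw [Ne, map_eq_zero]
    exact h.ne
  · exact h.anti (φ.comp (algebraMap K F))

/-- two generators -/
theorem CMGen.ratio {y z : F} (hy : CMGen F y) (hz : CMGen F z) :
    ∃ c : maximalRealSubfield F, c ≠ 0 ∧ z = c * y := by
  have hc : z / y ∈ maximalRealSubfield F := by
    rw [mem_maximalRealSubfield_iff]
    intro φ
    change conj (φ (z / y)) = φ (z / y)
    rw [map_div₀, map_div₀, hy.anti, hz.anti, neg_div_neg_eq]
  refine ⟨⟨z / y, hc⟩, ?_, ?_⟩
  · intro h
    have : z / y = 0 := congrArg Subtype.val h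
    rw [div_eq_zero_iff] at this
    rcases this with h | h
    · exact hz.ne h
    · exact hy.ne h
  · change z = z / y * y
    rw [div_mul_cancel₀ _ hy.ne]

end

end Pool.Agent.Q7.IM
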