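import Pool.Agent.Q7.IM.Val
import Pool.Agent.Q223.LD.Law
import Pool.Agent.Q223.LD.Sharp

/-! The ratio of two successive critical values over the finite extensions of `K`. -/

set_option autoImplicit false
set_option linter.unusedSectionVars false

namespace Pool.Agent.Q7.IM

open Module NumberField IsDedekindDomain Filter Pool.Agent.W353.NF Pool.Agent.W401.Cheb
  Pool.Agent.Q5.BR
open Pool.Agent.Q5.SO (Hyper)
open scoped Classical

section
variable {K E : Type} [Field K] [NumberField K] [Field E] [NumberField E]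
  {D : Data K E} {m : ℤ} {F : Type} [Field F] [NumberField F] [Algebra K F]

theorem under_under {Z : Type} [Field Z] [NumberField Z] [Algebra F Z] [Algebra K Z]
    [IsScalarTower K F Z] (w : HeightOneSpectrum (𝓞 Z)) :
    (w.under (𝓞 F)).under (𝓞 K) = w.under (𝓞 K) := by
  apply HeightOneSpectrum.ext
  change (w.asIdeal.comap (algebraMap (𝓞 F) (𝓞 Z))).comap (algebraMap (𝓞 K) (𝓞 F)) =
    w.asIdeal.comap (algebraMap (𝓞 K) (𝓞 Z))
  rw [Ideal.comap_comap, ← IsScalarTower.algebraMap_eq]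

/-- the finite part in a relation -/
theorem fin_rel (hD : D.Pure) (hwt : D.wt + 3 ≤ 2 * m) {ι : Type} [Fintype ι] {X : ι → Ext F}
    [∀ j, Algebra K (X j).F] [∀ j, IsScalarTower K F (X j).F] {n : ι → ℤ} (hrel : Rel X n)
    {b : ∀ j, HeightOneSpectrum (𝓞 (X j).F) → E} (hb : ∀ j, IsFactors D (X j).F m (b j)) :
    ∃ e : E, e ≠ 0 ∧ ∀ τ : E →+* ℂ, ∏ j, (∏' w, (τ (b j w))⁻¹) ^ (n j) = τ e := by
  obtain ⟨S₀, hS₀⟩ := euler_rel hrel
  have hbj' := fun j => (hb j).1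
  simp only [eventually_cofinite] at hbj'
  have hfin : ∀ j, ((fun w : HeightOneSpectrum (𝓞 (X j).F) => w.under (𝓞 F)) ''
      {w | ¬ ∀ f : ℕ, Ideal.absNorm w.asIdeal = Ideal.absNorm (w.under (𝓞 K)).asIdeal ^ f →
      b j w = (D.P (w.under (𝓞 K)) f).eval ((Ideal.absNorm w.asIdeal : E) ^ (-m))}).Finite :=
    fun j => (hbj' j).image _
  set S : Finset (HeightOneSpectrum (𝓞 F)) := S₀ ∪
    Finset.univ.biUnion fun j => (hfin j).toFinset with hS
  have hb0 : ∀ j w, b j w ≠ 0 := fun j => (hb j).2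
  refine ⟨∏ v ∈ S, ∏ j, (∏ w ∈ above (X j).F v, (b j w)⁻¹) ^ (n j), ?_, fun τ => ?_⟩
  · refine Finset.prod_ne_zero_iff.2 fun v _ => Finset.prod_ne_zero_iff.2 fun j _ =>
      zpow_ne_zero _ (Finset.prod_ne_zero_iff.2 fun w _ => inv_ne_zero (hb0 j w))
  have h1 := hS₀ S Finset.subset_union_left (fun j w => -Complex.log (τ (b j w)))
    (fun v f => -Complex.log (τ ((D.P (v.under (𝓞 K)) (rdeg K v * f)).eval
      (((Ideal.absNorm (v.under (𝓞 K)).asIdeal ^ (rdeg K v * f) : ℕ) : E) ^ (-m)))))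
    (fun j => summable_factors hD hwt (hb j) τ) (by
      intro j w hw
      have hw' : ∀ f : ℕ, Ideal.absNorm w.asIdeal = Ideal.absNorm (w.under (𝓞 K)).asIdeal ^ f →
          b j w = (D.P (w.under (𝓞 K)) f).eval ((Ideal.absNorm w.asIdeal : E) ^ (-m)) := by
        by_contra hcon
        apply hw
        rw [hS]
        apply Finset.mem_union_right
        rw [Finset.mem_biUnion]
        refine ⟨j, Finset.mem_univ j, ?_⟩
        rw [Set.Finite.mem_toFinset]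
        exact ⟨w, hcon, rfl⟩
      have hN : Ideal.absNorm w.asIdeal = Ideal.absNorm (w.under (𝓞 K)).asIdeal ^
          (rdeg K (w.under (𝓞 F)) * rdeg F w) := by
        rw [absNorm_rdeg (K := F) w, absNorm_rdeg (K := K) (w.under (𝓞 F)), ← pow_mul,
          under_under w]
      change -Complex.log (τ (b j w)) = -Complex.log (τ ((D.P ((w.under (𝓞 F)).under (𝓞 K))
        (rdeg K (w.under (𝓞 F)) * rdeg F w)).eval
        (((Ideal.absNorm ((w.under (𝓞 F)).under (𝓞 K)).asIdeal ^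
          (rdeg K (w.under (𝓞 F)) * rdeg F w) : ℕ) : E) ^ (-m))))
      rw [hw' _ hN, under_under w, hN])
  have h2 := congrArg Complex.exp h1
  rw [Complex.exp_sum, Complex.exp_sum] at h2
  have hexp : ∀ j w, Complex.exp (-Complex.log (τ (b j w))) = (τ (b j w))⁻¹ := by
    intro j w
    rw [Complex.exp_neg, Complex.exp_log]
    intro h0
    exact hb0 j w (τ.injective (by rw [h0, map_zero]))
  have h4 : ∀ j, Complex.exp ((n j : ℂ) * ∑' w, -Complex.log (τ (b j w))) =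
      (∏' w, (τ (b j w))⁻¹) ^ (n j) := by
    intro j
    rw [Complex.exp_int_mul, value_exp hD hwt (hb j)]
  rw [Finset.prod_congr rfl fun j _ => h4 j] at h2
  rw [h2, map_prod]
  refine Finset.prod_congr rfl fun v _ => ?_
  rw [Complex.exp_sum, map_prod]
  refine Finset.prod_congr rfl fun j _ => ?_
  rw [Complex.exp_int_mul, Complex.exp_sum, map_zpow₀, map_prod]
  congr 1
  refine Finset.prod_congr rfl fun w _ => ?_
  rw [hexp, map_inv₀]

/-- critical integers: `m` and `m + 1` are not poles of the archimedean factors -/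
def Crit (D : Data K E) (m : ℤ) : Prop := ∀ p ∈ D.hodge.support, p < m

theorem gam_ne (h : Crit D m) : gam D m ≠ 0 := by
  refine Finset.prod_ne_zero_iff.2 fun p hp => pow_ne_zero _ ?_
  have h1 := h p hp
  have h2 : (0 : ℝ) < ((m : ℂ) - p).re := by
    simp only [Complex.sub_re, Complex.intCast_re]
    have : (p : ℝ) < m := by exact_mod_cast h1
    linarith
  rw [← Complex.Gammaℝ_mul_Gammaℝ_add_one]
  refine mul_ne_zero (Complex.Gammaℝ_ne_zero_of_re_pos h2) (Complex.Gammaℝ_ne_zero_of_re_pos ?_)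
  rw [Complex.add_re, Complex.one_re]
  linarith

theorem value_ne (hD : D.Pure) (hwt : D.wt + 3 ≤ 2 * m) (hc : Crit D m) {ℓ : (E →+* ℂ) → ℂ}
    (h : IsValue D F m ℓ) (τ : E →+* ℂ) : ℓ τ ≠ 0 := by
  obtain ⟨b, h1, h2⟩ := h
  rw [h2, value_exp hD hwt h1]
  exact mul_ne_zero (pow_ne_zero _ (gam_ne hc)) (Complex.exp_ne_zero _)

theorem exists_value (hD : D.Pure) (hwt : D.wt + 3 ≤ 2 * m) (F : Type) [Field F] [NumberField F]
    [Algebra K F] : ∃ ℓ, IsValue D F m ℓ := by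
  obtain ⟨b, hb⟩ := exists_factors (F := F) hD hwt
  exact ⟨_, b, hb, fun τ => rfl⟩

theorem deg_sum {ι : Type} [Fintype ι] {Z : ι → Ext F} {n : ι → ℤ} {c : ℤ}
    (h : ∀ σ : GK F, ∑ j, n j * (fixn F (Z j).F σ : ℤ) = c) :
    ∑ j, n j * (finrank F (Z j).F : ℤ) = c := by
  rw [← h 1]
  refine Finset.sum_congr rfl fun j _ => ?_
  rw [Pool.Agent.Q223.LD.fixn_at_one]

/-- **The values in a relation.** -/
theorem value_rel (hD : D.Pure) (hwt : D.wt + 3 ≤ 2 * m) (hc : Crit D m) {ι : Type} [Fintype ι]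
    {Z : ι → Ext F} [∀ j, Algebra K (Z j).F] [∀ j, IsScalarTower K F (Z j).F] {n : ι → ℤ} {c : ℤ}
    (hrel : ∀ σ : GK F, ∑ j, n j * (fixn F (Z j).F σ : ℤ) = c) {ℓ₀ : (E →+* ℂ) → ℂ}
    {ℓ : ι → (E →+* ℂ) → ℂ} (h0 : IsValue D F m ℓ₀) (hℓ : ∀ j, IsValue D (Z j).F m (ℓ j)) :
    ∃ e : E, e ≠ 0 ∧ ∀ τ, ∏ j, (ℓ j τ) ^ (n j) = τ e * ℓ₀ τ ^ c := by
  obtain ⟨b₀, hb₀, hℓ₀⟩ := h0
  choose b hb hbℓ using hℓ
  let Z' : Option ι → Ext F := fun o => o.elim (Ext.mk F) Z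
  let n' : Option ι → ℤ := fun o => o.elim (-c) n
  let _ : ∀ o : Option ι, Algebra K (Z' o).F := fun o => match o with
    | none => (inferInstance : Algebra K F)
    | some j => (inferInstance : Algebra K (Z j).F)
  have hst : ∀ o : Option ι, IsScalarTower K F (Z' o).F := fun o => match o with
    | none => (inferInstance : IsScalarTower K F F)
    | some j => (inferInstance : IsScalarTower K F (Z j).F)
  have hrel' : Rel Z' n' := by
    intro σ
    rw [Fintype.sum_option]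
    change (-c) * (fixn F F σ : ℤ) + ∑ j, n j * (fixn F (Z j).F σ : ℤ) = 0
    rw [hrel σ, fixn_self]
    push_cast
    ring
  let b' : ∀ o : Option ι, HeightOneSpectrum (𝓞 (Z' o).F) → E := fun o => match o with
    | none => b₀
    | some j => b j
  obtain ⟨e, he, h1⟩ := fin_rel hD hwt hrel' (b := b') (by
    rintro (_ | j)
    · exact hb₀
    · exact hb j)
  refine ⟨e, he, fun τ => ?_⟩
  have h2 := h1 τ
  rw [Fintype.prod_option] at h2
  change (∏' w, (τ (b₀ w))⁻¹) ^ (-c) * ∏ j, (∏' w, (τ (b j w))⁻¹) ^ (n j) = τ e at h2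
  have hne : (∏' w, (τ (b₀ w))⁻¹) ≠ 0 := by
    rw [value_exp hD hwt hb₀]
    exact Complex.exp_ne_zero _
  have h3 : ∏ j, (∏' w, (τ (b j w))⁻¹) ^ (n j) = τ e * (∏' w, (τ (b₀ w))⁻¹) ^ c := by
    rw [← h2, zpow_neg]
    have := zpow_ne_zero c hne
    field_simp
  have h4 : ∏ j, (gam D m ^ finrank K (Z j).F) ^ (n j) = (gam D m ^ finrank K F) ^ c := by
    have hg := gam_ne hc
    have h5 : ∀ j, (gam D m ^ finrank K (Z j).F) ^ (n j) =
        gam D m ^ ((finrank K F : ℤ) * (n j * (finrank F (Z j).F : ℤ))) := by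
      intro j
      rw [← Module.finrank_mul_finrank K F (Z j).F, ← zpow_natCast, ← zpow_mul]
      congr 1
      push_cast
      ring
    rw [Finset.prod_congr rfl fun j _ => h5 j, Pool.Agent.Q5.DP.zpow_prod _ _ hg, ← Finset.mul_sum,
      deg_sum hrel, zpow_mul, zpow_natCast]
  rw [Finset.prod_congr rfl fun j _ => by rw [hbℓ j τ, mul_zpow], Finset.prod_mul_distrib, h3, h4,
    hℓ₀, mul_zpow]
  ring

/-- the ratio of the values at `m` and `m + 1` over `F` is the power of `X` predicted over `K`, with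
an exponent -/
def RatioP (D : Data K E) (m : ℤ) (X : ℂ) (F : Type) [Field F] [NumberField F] [Algebra K F]
    (t : ℤ) : Prop :=
  ∀ ℓ ℓ' : (E →+* ℂ) → ℂ, IsValue D F m ℓ → IsValue D F (m + 1) ℓ' → ∃ e : E, e ≠ 0 ∧ ∀ τ,
    (ℓ τ / (X ^ finrank K F * ℓ' τ)) ^ t = τ e

/-- the prediction over `F`, with an exponent -/
def ConjP (D : Data K E) (m : ℤ) (F : Type) [Field F] [NumberField F] [Algebra K F]
    (t : ℤ) : Prop :=
  ∀ δ, IsDelta F δ → ∀ ℓ ℓ' : (E →+* ℂ) → ℂ, IsValue D F m ℓ → IsValue D F (m + 1) ℓ' →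
    ∃ e : E, e ≠ 0 ∧ ∀ τ,
    (ℓ τ / ((Complex.I ^ (finrank ℚ F / 2) * δ) ^ D.rank * ℓ' τ)) ^ t = τ e

theorem up {D : Data K E} {m : ℤ} (h : D.wt + 3 ≤ 2 * m) : D.wt + 3 ≤ 2 * (m + 1) := by omega

theorem Crit.up {D : Data K E} {m : ℤ} (h : Crit D m) : Crit D (m + 1) := fun p hp => by
  have := h p hp
  omega

theorem ratio_step (hD : D.Pure) (hwt : D.wt + 3 ≤ 2 * m) (hc : Crit D m) {X : ℂ} (hX : X ≠ 0)
    (F : Type) [Field F] [NumberField F] [Algebra K F] (ι : Type) [Fintype ι] (Z : ι → Ext F)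
    [∀ j, Algebra K (Z j).F] [∀ j, IsScalarTower K F (Z j).F] (n : ι → ℤ) (c : ℤ)
    (hrel : ∀ σ : GK F, ∑ j, n j * (fixn F (Z j).F σ : ℤ) = c) (t : ℤ)
    (h : ∀ j, RatioP D m X (Z j).F t) : RatioP D m X F (c * t) := by
  intro ℓ ℓ' h0 h0'
  choose a ha using fun j => exists_value hD hwt (Z j).F
  choose a' ha' using fun j => exists_value hD (up hwt) (Z j).F
  choose e he he' using fun j => h j (a j) (a' j) (ha j) (ha' j)
  obtain ⟨e₀, he₀, h1⟩ := value_rel hD hwt hc hrel h0 ha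
  obtain ⟨e₁, he₁, h2⟩ := value_rel hD (up hwt) hc.up hrel h0' ha'
  refine ⟨(e₁ / e₀) ^ t * ∏ j, (e j) ^ (n j), mul_ne_zero (zpow_ne_zero _ (div_ne_zero he₁ he₀))
    (Finset.prod_ne_zero_iff.2 fun j _ => zpow_ne_zero _ (he j)), fun τ => ?_⟩
  have hℓ0 : ℓ τ ≠ 0 := value_ne hD hwt hc h0 τ
  have hℓ0' : ℓ' τ ≠ 0 := value_ne hD (up hwt) hc.up h0' τ
  have hτ0 : τ e₀ ≠ 0 := fun h0 => he₀ (τ.injective (by rw [h0, map_zero]))
  have hτ1 : τ e₁ ≠ 0 := fun h0 => he₁ (τ.injective (by rw [h0, map_zero]))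
  have h7 : ∏ j, (X ^ finrank K (Z j).F) ^ (n j) = (X ^ finrank K F) ^ c := by
    have h5 : ∀ j, (X ^ finrank K (Z j).F) ^ (n j) =
        X ^ ((finrank K F : ℤ) * (n j * (finrank F (Z j).F : ℤ))) := by
      intro j
      rw [← Module.finrank_mul_finrank K F (Z j).F, ← zpow_natCast, ← zpow_mul]
      congr 1
      push_cast
      ring
    rw [Finset.prod_congr rfl fun j _ => h5 j, Pool.Agent.Q5.DP.zpow_prod _ _ hX, ← Finset.mul_sum,
      deg_sum hrel, zpow_mul, zpow_natCast]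
  have h8 : ∏ j, (a j τ / (X ^ finrank K (Z j).F * a' j τ)) ^ (n j) =
      (∏ j, (a j τ) ^ (n j)) / ((∏ j, (X ^ finrank K (Z j).F) ^ (n j)) *
        ∏ j, (a' j τ) ^ (n j)) := by
    rw [← Finset.prod_mul_distrib, ← Finset.prod_div_distrib]
    refine Finset.prod_congr rfl fun j _ => ?_
    rw [div_zpow, mul_zpow]
  have h11 : (ℓ τ / (X ^ finrank K F * ℓ' τ)) ^ c = (τ e₁ / τ e₀) *
      ∏ j, (a j τ / (X ^ finrank K (Z j).F * a' j τ)) ^ (n j) := by
    rw [h8, h1, h2, h7, div_zpow, mul_zpow]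
    have h12 := zpow_ne_zero c hℓ0'
    have h13 := zpow_ne_zero c (pow_ne_zero (finrank K F) hX)
    field_simp
  rw [zpow_mul, h11, mul_zpow, map_mul, map_zpow₀, map_div₀, map_prod]
  congr 1
  rw [← Finset.prod_zpow]
  refine Finset.prod_congr rfl fun j _ => ?_
  have h12 := he' j τ
  rw [← zpow_mul, mul_comm (n j) t, zpow_mul, h12, map_zpow₀]

theorem ratio_isLaw (hD : D.Pure) (hwt : D.wt + 3 ≤ 2 * m) (hc : Crit D m) {X : ℂ} (hX : X ≠ 0) :
    Pool.Agent.Q5.VL.IsLaw (K := K) (fun F _ _ _ t => RatioP D m X F t) where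
  zero := fun F _ _ _ ℓ c _ _ => ⟨1, one_ne_zero, fun τ => by rw [zpow_zero, map_one]⟩
  add := by
    intro F _ _ _ t u ht hu ℓ c hℓ hc'
    obtain ⟨e, he, h1⟩ := ht ℓ c hℓ hc'
    obtain ⟨e', he', h2⟩ := hu ℓ c hℓ hc'
    refine ⟨e * e', mul_ne_zero he he', fun τ => ?_⟩
    rw [zpow_add₀ (div_ne_zero (value_ne hD hwt hc hℓ τ)
      (mul_ne_zero (pow_ne_zero _ hX) (value_ne hD (up hwt) hc.up hc' τ))), h1, h2, map_mul]
  neg := by
    intro F _ _ _ t ht ℓ c hℓ hc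
    obtain ⟨e, he, h1⟩ := ht ℓ c hℓ hc
    refine ⟨e⁻¹, inv_ne_zero he, fun τ => ?_⟩
    rw [zpow_neg, h1, map_inv₀]
  step := fun F _ _ _ ι _ Z _ _ n m hrel t h => ratio_step hD hwt hc hX F ι Z n m hrel t h

theorem conj_ne (hK : IsTotallyComplex K) (φ : K →+* ℂ) : ComplexEmbedding.conjugate φ ≠ φ := by
  intro h
  have h1 := hK.isComplex (InfinitePlace.mk φ)
  rw [InfinitePlace.isComplex_mk_iff] at h1
  exact h1 h

theorem degree_even (hK : IsTotallyComplex K) (F : Type) [Field F] [NumberField F] [Algebra K F] :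
    finrank ℚ F / 2 = (finrank ℚ K / 2) * finrank K F := by
  have h1 := IsTotallyComplex.finrank K
  rw [← Module.finrank_mul_finrank ℚ K F, h1, mul_assoc, Nat.mul_div_cancel_left _ two_pos,
    Nat.mul_div_cancel_left _ two_pos]

/-- the predictions over `F` and over `K` -/
theorem conj_iff (hK : IsTotallyComplex K) {δ : ℂ} (hδ : IsDelta K δ)
    (F : Type) [Field F] [NumberField F] [Algebra K F] (t : ℤ) :
    ConjP D m F t ↔ RatioP D m ((Complex.I ^ (finrank ℚ K / 2) * δ) ^ D.rank) F t := by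
  have key : ∀ δ', IsDelta F δ' → ∃ q : ℚ, q ≠ 0 ∧
      (Complex.I ^ (finrank ℚ F / 2) * δ') ^ D.rank =
      q * ((Complex.I ^ (finrank ℚ K / 2) * δ) ^ D.rank) ^ finrank K F := by
    intro δ' hδ'
    obtain ⟨q, hq, h⟩ := delta_mul (conj_ne hK) hδ hδ'
    refine ⟨q ^ D.rank, pow_ne_zero _ hq, ?_⟩
    rw [h, degree_even hK F]
    push_cast
    ring
  have hq : ∀ (q : ℚ) (τ : E →+* ℂ), τ (q : E) = q := fun q τ => map_ratCast τ q
  constructor
  · intro h ℓ ℓ' h0 h1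
    obtain ⟨δ', hδ', -⟩ := exists_delta F
    obtain ⟨q, hq0, hq1⟩ := key δ' hδ'
    obtain ⟨e, he, h2⟩ := h δ' hδ' ℓ ℓ' h0 h1
    refine ⟨(q : E) ^ t * e, mul_ne_zero (zpow_ne_zero _ (by exact_mod_cast hq0)) he, fun τ => ?_⟩
    rw [map_mul, map_zpow₀, hq, ← h2, hq1, ← mul_zpow]
    congr 1
    have : (q : ℂ) ≠ 0 := by exact_mod_cast hq0
    field_simp
  · intro h δ' hδ' ℓ ℓ' h0 h1
    obtain ⟨q, hq0, hq1⟩ := key δ' hδ'
    obtain ⟨e, he, h2⟩ := h ℓ ℓ' h0 h1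
    refine ⟨((q : E)⁻¹) ^ t * e,
      mul_ne_zero (zpow_ne_zero _ (inv_ne_zero (by exact_mod_cast hq0))) he, fun τ => ?_⟩
    rw [map_mul, map_zpow₀, map_inv₀, hq, ← h2, hq1, ← mul_zpow]
    congr 1
    have : (q : ℂ) ≠ 0 := by exact_mod_cast hq0
    field_simp

theorem isLaw_congr {P Q : ∀ (F : Type) [Field F] [NumberField F] [Algebra K F], ℤ → Prop}
    (h : ∀ (F : Type) [Field F] [NumberField F] [Algebra K F] (t : ℤ), P F t ↔ Q F t)
    (hQ : Pool.Agent.Q5.VL.IsLaw Q) : Pool.Agent.Q5.VL.IsLaw P where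
  zero := fun F _ _ _ => (h F 0).2 (hQ.zero F)
  add := fun F _ _ _ t u ht hu => (h F _).2 (hQ.add F t u ((h F t).1 ht) ((h F u).1 hu))
  neg := fun F _ _ _ t ht => (h F _).2 (hQ.neg F t ((h F t).1 ht))
  step := fun F _ _ _ ι _ Y _ _ n m hrel t ht =>
    (h F _).2 (hQ.step F ι Y n m hrel t fun j => (h (Y j).F t).1 (ht j))

/-- **The law.** -/
theorem conj_isLaw (hK : IsTotallyComplex K) (hD : D.Pure) (hwt : D.wt + 3 ≤ 2 * m)
    (hc : Crit D m) : Pool.Agent.Q5.VL.IsLaw (K := K) (fun F _ _ _ t => ConjP D m F t) := by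
  obtain ⟨δ, hδ, hδ0⟩ := exists_delta K
  have hX : (Complex.I ^ (finrank ℚ K / 2) * δ) ^ D.rank ≠ 0 :=
    pow_ne_zero _ (mul_ne_zero (pow_ne_zero _ Complex.I_ne_zero) hδ0)
  exact isLaw_congr (fun F _ _ _ t => conj_iff hK hδ F t) (ratio_isLaw hD hwt hc hX)

end

end Pool.Agent.Q7.IM
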