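import Pool.Agent.Q7.IM.Law

/-! The descent of the ratio law from finite extensions. -/

set_option autoImplicit false
set_option linter.unusedSectionVars false

namespace Pool.Agent.Q7.IM

open Module NumberField IsDedekindDomain Filter Pool.Agent.W353.NF Pool.Agent.W401.Cheb
  Pool.Agent.Q5.BR
open Pool.Agent.Q5.SO (Hyper)
open scoped Classical

/-- the relation between the subfields of a Galois extension -/
theorem hyper_relation (L : Type) [Field L] [NumberField L] (F : Type) [Field F] [NumberField F]
    [Algebra F L] [IsGalois F L] :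
    ∃ (ι : Type) (_ : Fintype ι) (Y : ι → Ext F) (_ : ∀ j, Algebra (Y j).F L)
      (_ : ∀ j, IsScalarTower F (Y j).F L) (n : ι → ℤ),
      (∀ j, Hyper (L ≃ₐ[(Y j).F] L)) ∧
      ∀ σ : GK F, ∑ j, n j * (fixn F (Y j).F σ : ℤ) = 1 := by
  have hfd : FiniteDimensional F L := by
    have : IsScalarTower ℚ F L := inferInstance
    exact FiniteDimensional.right ℚ F L
  let i : L →ₐ[F] AlgebraicClosure F := IsAlgClosed.lift
  let N : IntermediateField F (AlgebraicClosure F) := i.fieldRange
  let e : L ≃ₐ[F] N := AlgEquiv.ofInjectiveField i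
  have hfdN : FiniteDimensional F N := LinearEquiv.finiteDimensional e.toLinearEquiv
  have hnor : Normal F N := Normal.of_algEquiv e
  obtain ⟨ι, hι, B, n, hB, hrel⟩ := Pool.Agent.Q5.SO.solomon_relation N
  have hnf : ∀ j, NumberField (IntermediateField.fixedField (B j)) := fun j =>
    NumberField.of_module_finite F _
  let Y : ι → Ext F := fun j => @Ext.mk F _ _ (IntermediateField.fixedField (B j)) _ (hnf j) _
  let a : ∀ j, Algebra (Y j).F L := fun j =>
    ((e.symm : N →+* L).comp (algebraMap (IntermediateField.fixedField (B j)) N)).toAlgebra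
  have hst : ∀ j, IsScalarTower F (Y j).F L := fun j => by
    refine IsScalarTower.of_algebraMap_eq fun x => ?_
    change algebraMap F L x = e.symm (algebraMap F N x)
    rw [AlgEquiv.commutes]
  refine ⟨ι, hι, Y, a, hst, n, fun j => ?_, hrel⟩
  refine Pool.Agent.Q5.DP.hyper_of_equiv ?_ (hB j)
  -- the Galois groups
  let e₁ : B j ≃* (N ≃ₐ[IntermediateField.fixedField (B j)] N) :=
    (MulEquiv.subgroupCongr (IntermediateField.fixingSubgroup_fixedField (B j)).symm).trans
      (IntermediateField.fixingSubgroupEquiv (IntermediateField.fixedField (B j)))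
  let _ := a j
  let e₂ : N ≃ₐ[IntermediateField.fixedField (B j)] L :=
    AlgEquiv.ofRingEquiv (f := (e.symm : N ≃+* L)) fun x => rfl
  exact e₁.trans (AlgEquiv.autCongr e₂)

section
variable {K : Type} [Field K] [NumberField K]
  {P : ∀ (F : Type) [Field F] [NumberField F] [Algebra K F], ℤ → Prop}

/-- the subfields of a Galois extension -/
theorem hyper_law (hP : Pool.Agent.Q5.VL.IsLaw P) (L : Type) [Field L] [NumberField L]
    [Algebra K L] [IsGalois K L]
    (h : ∀ (F : Type) [Field F] [NumberField F] [Algebra K F] [Algebra F L] [IsScalarTower K F L],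
      Hyper (L ≃ₐ[F] L) → P F 1)
    (F : Type) [Field F] [NumberField F] [Algebra K F] [Algebra F L] [IsScalarTower K F L] :
    P F 1 := by
  have hgal : IsGalois F L := IsGalois.tower_top_of_isGalois K F L
  obtain ⟨ι, hι, Y, a, hst, n, hY, hrel⟩ := hyper_relation L F
  let _ : ∀ j, Algebra K (Y j).F := fun j =>
    ((algebraMap F (Y j).F).comp (algebraMap K F)).toAlgebra
  have : ∀ j, IsScalarTower K F (Y j).F := fun j =>
    IsScalarTower.of_algebraMap_eq fun x => rfl
  have : ∀ j, IsScalarTower K (Y j).F L := fun j => by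
    refine IsScalarTower.of_algebraMap_eq fun x => ?_
    change _ = algebraMap (Y j).F L (algebraMap F (Y j).F (algebraMap K F x))
    rw [← IsScalarTower.algebraMap_apply F (Y j).F L, ← IsScalarTower.algebraMap_apply K F L]
  have h1 := hP.step F ι Y n 1 hrel 1 (fun j => h (Y j).F (hY j))
  rwa [one_mul] at h1

/-- families of fields -/
theorem exact_law (hP : Pool.Agent.Q5.VL.IsLaw P)
    {𝓕 : Set (IntermediateField K (AlgebraicClosure K))} (h : Pool.Agent.Q5.SO.Exact 𝓕)
    (h1 : ∀ F ∈ 𝓕, ∀ [NumberField F], P F 1) : P K 1 := by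
  obtain ⟨ι, _, F, n, hF, hrel⟩ := Pool.Agent.Q5.SO.exact_relation h
  have hfd : ∀ j, FiniteDimensional K (F j) := fun j => h.1 _ (hF j)
  have hnf : ∀ j, NumberField (F j) := fun j => NumberField.of_module_finite K _
  let Y : ι → Ext K := fun j => @Ext.mk K _ _ (F j) _ (hnf j) _
  have h2 := hP.step K ι Y n 1 hrel 1 (fun j => h1 (F j) (hF j))
  rwa [one_mul] at h2

end

end Pool.Agent.Q7.IM
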