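import Pool.Agent.Q7.IM.Delta

/-! The number `Δ_F` of a totally imaginary field in finite extensions: multiplicativity. -/

set_option autoImplicit false
set_option linter.unusedSectionVars false

namespace Pool.Agent.Q7.IM

open NumberField Module
open scoped Classical ComplexConjugate IntermediateField

section
variable {K F : Type} [Field K] [NumberField K] [Field F] [NumberField F] [Algebra K F]

theorem norm_up (x : maximalRealSubfield K) :
    Algebra.norm ℚ (⟨algebraMap K F x, real_map x.2⟩ : maximalRealSubfield F) =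
      Algebra.norm ℚ x ^ (finrank (maximalRealSubfield K) F / finrank (maximalRealSubfield F) F) := by
  let j : maximalRealSubfield K →+* maximalRealSubfield F :=
    (algebraMap K F).restrict _ _ fun x hx => real_map hx
  let _ : Algebra (maximalRealSubfield K) (maximalRealSubfield F) := j.toAlgebra
  have : IsScalarTower (maximalRealSubfield K) (maximalRealSubfield F) F :=
    IsScalarTower.of_algebraMap_eq fun x => rfl
  have hfd : FiniteDimensional (maximalRealSubfield K) (maximalRealSubfield F) := by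
    have : IsScalarTower ℚ (maximalRealSubfield K) (maximalRealSubfield F) := inferInstance
    exact FiniteDimensional.right ℚ (maximalRealSubfield K) (maximalRealSubfield F)
  have h1 : (⟨algebraMap K F x, real_map x.2⟩ : maximalRealSubfield F) =
      algebraMap (maximalRealSubfield K) (maximalRealSubfield F) x := rfl
  rw [h1, ← Algebra.norm_norm (R := ℚ) (S := maximalRealSubfield K), Algebra.norm_algebraMap,
    map_pow]
  congr 1
  have h2 := Module.finrank_mul_finrank (maximalRealSubfield K) (maximalRealSubfield F) F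
  have h3 : 0 < finrank (maximalRealSubfield F) F := finrank_pos
  rw [← h2, Nat.mul_div_cancel _ h3]

/-- the CM-case -/
theorem delta_cm {y : K} (hy : CMGen K y) {s : ℂ}
    (hs : s ^ 2 = ((Algebra.norm ℚ (⟨y ^ 2, hy.1⟩ : maximalRealSubfield K) : ℚ) : ℂ))
    {z : F} (hz : CMGen F z) {t : ℂ}
    (ht : t ^ 2 = ((Algebra.norm ℚ (⟨z ^ 2, hz.1⟩ : maximalRealSubfield F) : ℚ) : ℂ)) :
    ∃ q : ℚ, q ≠ 0 ∧ t ^ finrank (maximalRealSubfield F)⟮z⟯ F =
      q * (s ^ finrank (maximalRealSubfield K)⟮y⟯ K) ^ finrank K F := by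
  obtain ⟨c, hc0, hc⟩ := (hy.up (F := F)).ratio hz
  set e := finrank (maximalRealSubfield K) F / finrank (maximalRealSubfield F) F with he
  have h1 : (⟨z ^ 2, hz.1⟩ : maximalRealSubfield F) =
      c ^ 2 * ⟨algebraMap K F (⟨y ^ 2, hy.1⟩ : maximalRealSubfield K), real_map hy.1⟩ := by
    apply Subtype.ext
    change z ^ 2 = (c : F) ^ 2 * algebraMap K F (y ^ 2)
    rw [hc, map_pow]
    ring
  have hnc : Algebra.norm ℚ c ≠ 0 := by
    rw [Ne, Algebra.norm_eq_zero_iff]
    exact hc0
  have h2 : t ^ 2 = (((Algebra.norm ℚ c : ℚ) : ℂ) * s ^ e) ^ 2 := by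
    rw [ht, h1, map_mul, map_pow, norm_up]
    push_cast
    rw [mul_pow, ← pow_mul, mul_comm e 2, pow_mul, hs]
  have h3 : ∃ u : ℚ, u ≠ 0 ∧ t = u * s ^ e := by
    rcases sq_eq_sq_iff_eq_or_eq_neg.1 h2 with h | h
    · exact ⟨_, hnc, h⟩
    · refine ⟨-Algebra.norm ℚ c, neg_ne_zero.2 hnc, ?_⟩
      rw [h]
      push_cast
      ring
  obtain ⟨u, hu0, hu⟩ := h3
  refine ⟨u ^ finrank (maximalRealSubfield F)⟮z⟯ F, pow_ne_zero _ hu0, ?_⟩
  have h4 : e * finrank (maximalRealSubfield F)⟮z⟯ F =
      finrank (maximalRealSubfield K)⟮y⟯ K * finrank K F := by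
    have h5 := hy.finrank
    have h6 := hz.finrank
    have h7 : finrank (maximalRealSubfield K) K * finrank K F =
        finrank (maximalRealSubfield K) F := Module.finrank_mul_finrank _ _ _
    have h8 : e * finrank (maximalRealSubfield F) F = finrank (maximalRealSubfield K) F := by
      let j : maximalRealSubfield K →+* maximalRealSubfield F :=
        (algebraMap K F).restrict _ _ fun x hx => real_map hx
      let _ : Algebra (maximalRealSubfield K) (maximalRealSubfield F) := j.toAlgebra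
      have : IsScalarTower (maximalRealSubfield K) (maximalRealSubfield F) F :=
        IsScalarTower.of_algebraMap_eq fun x => rfl
      have h9 := Module.finrank_mul_finrank (maximalRealSubfield K) (maximalRealSubfield F) F
      have h3 : 0 < finrank (maximalRealSubfield F) F := finrank_pos
      rw [he, ← h9, Nat.mul_div_cancel _ h3]
    have h10 : 2 * (e * finrank (maximalRealSubfield F)⟮z⟯ F) =
        2 * (finrank (maximalRealSubfield K)⟮y⟯ K * finrank K F) := by
      calc 2 * (e * finrank (maximalRealSubfield F)⟮z⟯ F)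
          = e * (2 * finrank (maximalRealSubfield F)⟮z⟯ F) := by ring
        _ = (2 * finrank (maximalRealSubfield K)⟮y⟯ K) * finrank K F := by rw [h6, h8, ← h7, h5]
        _ = _ := by ring
    omega
  rw [hu, mul_pow, ← pow_mul, ← pow_mul, h4]
  push_cast
  ring

end

section
variable {K F : Type} [Field K] [NumberField K] [Field F] [NumberField F] [Algebra K F]

/-- the embeddings of `F` with given restrictions -/
noncomputable def emb (φ : K →+* ℂ) (σ : maximalRealSubfield F →+* ℂ) : Finset (F →+* ℂ) :=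
  Finset.univ.filter fun ψ => ψ.comp (algebraMap K F) = φ ∧
    ψ.comp (algebraMap (maximalRealSubfield F) F) = σ

theorem trace_sum (φ : K →+* ℂ) (x : F) :
    φ (Algebra.trace K F x) =
      ∑ ψ ∈ Finset.univ.filter (fun ψ : F →+* ℂ => ψ.comp (algebraMap K F) = φ), ψ x := by
  let _ : Algebra K ℂ := φ.toAlgebra
  have hfd : FiniteDimensional K F := by
    have : IsScalarTower ℚ K F := inferInstance
    exact FiniteDimensional.right ℚ K F
  have h1 := trace_eq_sum_embeddings (K := K) (L := F) ℂ (x := x)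
  change φ (Algebra.trace K F x) = _ at h1
  rw [h1]
  refine Finset.sum_bij (fun σ _ => (σ : F →+* ℂ)) ?_ ?_ ?_ ?_
  · intro σ _
    rw [Finset.mem_filter]
    refine ⟨Finset.mem_univ _, RingHom.ext fun a => σ.commutes a⟩
  · intro σ _ τ _ h
    exact AlgHom.ext fun a => DFunLike.congr_fun h a
  · intro ψ hψ
    rw [Finset.mem_filter] at hψ
    exact ⟨{ ψ with commutes' := fun a => DFunLike.congr_fun hψ.2 a }, Finset.mem_univ _, rfl⟩
  · intro σ _
    rfl

/-- the traces vanish in the TR-case -/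
theorem trace_zero (hK : ∀ y : K, ¬ CMGen K y) {z : F} (hz : CMGen F z)
    (a : maximalRealSubfield F) : Algebra.trace K F (a * z) = 0 := by
  by_contra h0
  refine hK _ (cmGen_of h0 fun φ => ?_)
  rw [trace_sum, map_sum, ← Finset.sum_neg_distrib]
  refine Finset.sum_congr rfl fun ψ _ => ?_
  have h1 : conj (ψ a) = ψ a := (mem_maximalRealSubfield_iff _).1 a.2 ψ
  rw [map_mul, map_mul, h1, hz.anti]
  ring

/-- the balance -/
theorem balance (hK : ∀ y : K, ¬ CMGen K y) {z : F} (hz : CMGen F z) (φ : K →+* ℂ)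
    (σ : maximalRealSubfield F →+* ℂ) : ∑ ψ ∈ emb φ σ, ψ z = 0 := by
  have h1 : ∀ a : maximalRealSubfield F, ∑ τ : maximalRealSubfield F →+* ℂ,
      (∑ ψ ∈ emb φ τ, ψ z) * τ a = 0 := by
    intro a
    have h2 : φ (Algebra.trace K F (a * z)) = 0 := by rw [trace_zero hK hz, map_zero]
    rw [trace_sum, ← Finset.sum_fiberwise_of_maps_to (s := Finset.univ.filter
      (fun ψ : F →+* ℂ => ψ.comp (algebraMap K F) = φ)) (t := Finset.univ)
      (g := fun ψ => ψ.comp (algebraMap (maximalRealSubfield F) F))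
      (fun _ _ => Finset.mem_univ _)] at h2
    rw [← h2]
    refine Finset.sum_congr rfl fun τ _ => ?_
    rw [Finset.sum_mul, Finset.filter_filter]
    refine Finset.sum_congr rfl fun ψ hψ => ?_
    have hψ' := (Finset.mem_filter.1 hψ).2
    rw [map_mul, mul_comm, ← hψ'.2]
    rfl
  have h3 := linearIndependent_monoidHom (maximalRealSubfield F) ℂ
  have h4 : LinearIndependent ℂ (fun τ : maximalRealSubfield F →+* ℂ =>
      (τ : maximalRealSubfield F → ℂ)) := by
    have h5 := h3.comp (fun τ : maximalRealSubfield F →+* ℂ =>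
      (τ : maximalRealSubfield F →* ℂ)) (fun τ τ' h => RingHom.ext fun a => DFunLike.congr_fun h a)
    exact h5
  rw [Fintype.linearIndependent_iff] at h4
  refine h4 (fun τ => ∑ ψ ∈ emb φ τ, ψ z) ?_ σ
  funext a
  rw [Finset.sum_apply]
  exact h1 a

theorem card_ext (z : F) (φ₀ : F →+* ℂ) :
    (Finset.univ.filter (fun ψ : F →+* ℂ => ψ.comp (algebraMap (maximalRealSubfield F) F) =
      φ₀.comp (algebraMap (maximalRealSubfield F) F) ∧ ψ z = φ₀ z)).card =
      finrank (maximalRealSubfield F)⟮z⟯ F := by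
  let _ : Algebra (maximalRealSubfield F)⟮z⟯ ℂ :=
    (φ₀.comp (algebraMap (maximalRealSubfield F)⟮z⟯ F)).toAlgebra
  rw [← AlgHom.card (maximalRealSubfield F)⟮z⟯ F ℂ, ← Finset.card_univ]
  symm
  refine Finset.card_bij (fun σ _ => (σ : F →+* ℂ)) ?_ ?_ ?_
  · intro σ _
    rw [Finset.mem_filter]
    refine ⟨Finset.mem_univ _, RingHom.ext fun a => ?_, ?_⟩
    · exact σ.commutes (algebraMap (maximalRealSubfield F) (maximalRealSubfield F)⟮z⟯ a)
    · exact σ.commutes ⟨z, IntermediateField.mem_adjoin_simple_self _ z⟩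
  · intro σ _ τ _ h
    exact AlgHom.ext fun a => DFunLike.congr_fun h a
  · intro ψ hψ
    rw [Finset.mem_filter] at hψ
    refine ⟨{ ψ with commutes' := fun a => ?_ }, Finset.mem_univ _, rfl⟩
    change ψ a = φ₀ a
    have h1 : ∀ b ∈ (maximalRealSubfield F)⟮z⟯, ψ b = φ₀ b := by
      intro b hb
      induction hb using IntermediateField.adjoin_induction with
      | mem x hx =>
        rw [Set.mem_singleton_iff] at hx
        rw [hx]
        exact hψ.2.2
      | algebraMap x => exact DFunLike.congr_fun hψ.2.1 x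
      | add x y _ _ hx hy => rw [map_add, map_add, hx, hy]
      | inv x _ hx => rw [map_inv₀, map_inv₀, hx]
      | mul x y _ _ hx hy => rw [map_mul, map_mul, hx, hy]
    exact h1 a a.2

/-- the degree is even if `K` is in the TR-case -/
theorem even_degree (hc : ∀ φ : K →+* ℂ, ComplexEmbedding.conjugate φ ≠ φ)
    (hK : ∀ y : K, ¬ CMGen K y) {z : F} (hz : CMGen F z) :
    Even (finrank (maximalRealSubfield F)⟮z⟯ F) := by
  obtain ⟨φ₀⟩ : Nonempty (F →+* ℂ) := inferInstance
  set σ := φ₀.comp (algebraMap (maximalRealSubfield F) F) with hσ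
  set s := φ₀ z with hs
  have hs0 : s ≠ 0 := by
    intro h
    exact hz.ne (φ₀.injective (by rw [map_zero]; exact h))
  have hval : ∀ ψ : F →+* ℂ, ψ.comp (algebraMap (maximalRealSubfield F) F) = σ →
      ψ z = s ∨ ψ z = -s := by
    intro ψ hψ
    have h1 : ψ (z ^ 2) = φ₀ (z ^ 2) := by
      have := DFunLike.congr_fun hψ (⟨z ^ 2, hz.1⟩ : maximalRealSubfield F)
      exact this
    rw [map_pow, map_pow] at h1
    exact sq_eq_sq_iff_eq_or_eq_neg.1 h1
  let a : (K →+* ℂ) → ℕ := fun φ => ((emb (F := F) φ σ).filter fun ψ => ψ z = s).card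
  let b : (K →+* ℂ) → ℕ := fun φ => ((emb (F := F) φ σ).filter fun ψ => ¬ ψ z = s).card
  have hab : ∀ φ, a φ = b φ := by
    intro φ
    have h1 := balance hK hz φ σ
    rw [← Finset.sum_filter_add_sum_filter_not (emb φ σ) (fun ψ => ψ z = s)] at h1
    have h2 : ∑ ψ ∈ (emb (F := F) φ σ).filter (fun ψ => ψ z = s), ψ z = a φ * s := by
      rw [Finset.sum_congr rfl fun ψ hψ => (Finset.mem_filter.1 hψ).2, Finset.sum_const,
        nsmul_eq_mul]
    have h3 : ∑ ψ ∈ (emb (F := F) φ σ).filter (fun ψ => ¬ ψ z = s), ψ z = b φ * (-s) := by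
      have h4 : ∀ ψ ∈ (emb (F := F) φ σ).filter (fun ψ => ¬ ψ z = s), ψ z = -s := by
        intro ψ hψ
        rw [Finset.mem_filter] at hψ
        have h5 := (Finset.mem_filter.1 hψ.1).2.2
        exact (hval ψ h5).resolve_left hψ.2
      rw [Finset.sum_congr rfl h4, Finset.sum_const, nsmul_eq_mul]
    rw [h2, h3] at h1
    have h5 : ((a φ : ℂ) - b φ) * s = 0 := by linear_combination h1
    rcases mul_eq_zero.1 h5 with h | h
    · exact_mod_cast (sub_eq_zero.1 h)
    · exact absurd h hs0
  have hconj : ∀ φ, b φ = a (ComplexEmbedding.conjugate φ) := by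
    intro φ
    refine Finset.card_bij (fun ψ _ => ComplexEmbedding.conjugate ψ) ?_ ?_ ?_
    · intro ψ hψ
      rw [Finset.mem_filter, emb, Finset.mem_filter] at hψ ⊢
      obtain ⟨⟨-, h1, h2⟩, h3⟩ := hψ
      refine ⟨⟨Finset.mem_univ _, ?_, ?_⟩, ?_⟩
      · rw [← h1]
        rfl
      · refine RingHom.ext fun x => ?_
        change conj (ψ (x : F)) = σ x
        have h4 : conj (ψ (x : F)) = ψ x := (mem_maximalRealSubfield_iff _).1 x.2 ψ
        rw [h4]
        exact DFunLike.congr_fun h2 x
      · change conj (ψ z) = s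
        rw [hz.anti, (hval ψ h2).resolve_left h3, neg_neg]
    · intro ψ _ ψ' _ h
      have := congrArg ComplexEmbedding.conjugate h
      simpa using this
    · intro ψ hψ
      rw [Finset.mem_filter, emb, Finset.mem_filter] at hψ
      obtain ⟨⟨-, h1, h2⟩, h3⟩ := hψ
      refine ⟨ComplexEmbedding.conjugate ψ, ?_, by simp⟩
      rw [Finset.mem_filter, emb, Finset.mem_filter]
      refine ⟨⟨Finset.mem_univ _, ?_, ?_⟩, ?_⟩
      · have := congrArg ComplexEmbedding.conjugate h1
        rw [show ComplexEmbedding.conjugate (ComplexEmbedding.conjugate φ) = φ by simp] at this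
        rw [← this]
        rfl
      · refine RingHom.ext fun x => ?_
        change conj (ψ (x : F)) = σ x
        have h4 : conj (ψ (x : F)) = ψ x := (mem_maximalRealSubfield_iff _).1 x.2 ψ
        rw [h4]
        exact DFunLike.congr_fun h2 x
      · change ¬ conj (ψ z) = s
        rw [hz.anti, h3]
        intro h4
        apply hs0
        have : (2 : ℂ) * s = 0 := by linear_combination -h4
        simpa using this
  have hcard := card_ext z φ₀
  have h1 : (Finset.univ.filter (fun ψ : F →+* ℂ =>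
      ψ.comp (algebraMap (maximalRealSubfield F) F) = σ ∧ ψ z = s)).card = ∑ φ, a φ := by
    rw [Finset.card_eq_sum_card_fiberwise (f := fun ψ : F →+* ℂ => ψ.comp (algebraMap K F))
      (t := Finset.univ) (fun _ _ => Finset.mem_univ _)]
    refine Finset.sum_congr rfl fun φ _ => ?_
    congr 1
    ext ψ
    simp only [Finset.mem_filter, emb, Finset.mem_univ, true_and]
    tauto
  rw [← hcard, h1, ← ZMod.natCast_eq_zero_iff_even]
  push_cast
  refine Finset.sum_involution (fun φ _ => ComplexEmbedding.conjugate φ) ?_ ?_ ?_ ?_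
  · intro φ _
    rw [← hconj, ← hab]
    exact CharTwo.add_self_eq_zero _
  · intro φ _ _
    exact hc φ
  · intro φ _
    exact Finset.mem_univ _
  · intro φ _
    simp

/-- **The number `Δ` in finite extensions.** -/
theorem delta_mul (hc : ∀ φ : K →+* ℂ, ComplexEmbedding.conjugate φ ≠ φ) {δ δ' : ℂ}
    (h : IsDelta K δ) (h' : IsDelta F δ') :
    ∃ q : ℚ, q ≠ 0 ∧ δ' = q * δ ^ finrank K F := by
  rcases h with ⟨y, hy, s, hs, rfl⟩ | ⟨hK, rfl⟩
  · rcases h' with ⟨z, hz, t, ht, rfl⟩ | ⟨hF, rfl⟩
    · exact delta_cm hy hs hz ht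
    · exact absurd (hy.up (F := F)) (hF _)
  · rcases h' with ⟨z, hz, t, ht, rfl⟩ | ⟨hF, rfl⟩
    · obtain ⟨k, hk⟩ := even_degree hc hK hz
      refine ⟨(Algebra.norm ℚ (⟨z ^ 2, hz.1⟩ : maximalRealSubfield F)) ^ k, ?_, ?_⟩
      · refine pow_ne_zero _ ?_
        rw [Ne, Algebra.norm_eq_zero_iff]
        intro h0
        have h1 : z ^ 2 = 0 := congrArg Subtype.val h0
        exact hz.ne (by simpa using h1)
      · rw [hk, ← two_mul, pow_mul, ht, one_pow, mul_one]
        push_cast
        rfl
    · exact ⟨1, one_ne_zero, by simp⟩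

end

/-- existence -/
theorem exists_delta (F : Type) [Field F] [NumberField F] : ∃ δ, IsDelta F δ ∧ δ ≠ 0 := by
  by_cases h : ∃ y : F, CMGen F y
  · obtain ⟨y, hy⟩ := h
    obtain ⟨s, hs⟩ := IsAlgClosed.exists_pow_nat_eq
      (((Algebra.norm ℚ (⟨y ^ 2, hy.1⟩ : maximalRealSubfield F) : ℚ) : ℂ)) (n := 2) two_pos
    refine ⟨_, Or.inl ⟨y, hy, s, hs, rfl⟩, pow_ne_zero _ ?_⟩
    rintro rfl
    rw [zero_pow two_ne_zero] at hs
    have h1 : Algebra.norm ℚ (⟨y ^ 2, hy.1⟩ : maximalRealSubfield F) = 0 := by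
      exact_mod_cast hs.symm
    rw [Algebra.norm_eq_zero_iff] at h1
    have h2 : y ^ 2 = 0 := congrArg Subtype.val h1
    exact hy.ne (by simpa using h2)
  · exact ⟨1, Or.inr ⟨fun y hy => h ⟨y, hy⟩, rfl⟩, one_ne_zero⟩

end Pool.Agent.Q7.IM
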