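import Pool.Agent.Q5.DP.Ratio
import Pool.Agent.Q7.IM.Mul

/-! Values of the L-functions of a motive over a number field `K` and of its base changes. -/

set_option autoImplicit false
set_option linter.unusedSectionVars false

namespace Pool.Agent.Q7.IM

open Module NumberField IsDedekindDomain Filter Pool.Agent.W353.NF Pool.Agent.W401.Cheb
  Pool.Agent.Q5.BR
open scoped Classical

/-- The data of a motive `M₀` over `K` with coefficients in `E`: weight, rank, the Hodge numbers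
`hodge p = h^{p, w-p}`, `p < w - p`, of its restriction of scalars to `ℚ`, and `P v f`, the
determinant of `1 - Frob_v ^ f X`. -/
structure Data (K E : Type) [Field K] [Field E] where
  wt : ℤ
  rank : ℕ
  hodge : ℤ →₀ ℕ
  P : HeightOneSpectrum (𝓞 K) → ℕ → Polynomial E

section
variable {K E : Type} [Field K] [NumberField K] [Field E] [NumberField E]

/-- purity at almost all places -/
def Data.Pure (D : Data K E) : Prop :=
  ∀ᶠ v : HeightOneSpectrum (𝓞 K) in cofinite, ∀ τ : E →+* ℂ, ∃ α : Fin D.rank → ℂ,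
    (∀ j, ‖α j‖ = (Ideal.absNorm v.asIdeal : ℝ) ^ ((D.wt : ℝ) / 2)) ∧
    ∀ f, (D.P v f).map τ = ∏ j, (1 - Polynomial.C (α j ^ f) * Polynomial.X)

/-- `b` are the Euler factors at `s = m` over `F` -/
def IsFactors (D : Data K E) (F : Type) [Field F] [NumberField F] [Algebra K F] (m : ℤ)
    (b : HeightOneSpectrum (𝓞 F) → E) : Prop :=
  (∀ᶠ w in cofinite, ∀ f : ℕ,
    Ideal.absNorm w.asIdeal = Ideal.absNorm (w.under (𝓞 K)).asIdeal ^ f →
      b w = (D.P (w.under (𝓞 K)) f).eval ((Ideal.absNorm w.asIdeal : E) ^ (-m))) ∧ ∀ w, b w ≠ 0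

/-- the archimedean factor over `K` -/
noncomputable def gam (D : Data K E) (m : ℤ) : ℂ :=
  ∏ p ∈ D.hodge.support, Complex.Gammaℂ ((m : ℂ) - p) ^ D.hodge p

/-- the value of the completed L-function over `F` at `s = m` -/
def IsValue (D : Data K E) (F : Type) [Field F] [NumberField F] [Algebra K F] (m : ℤ)
    (ℓ : (E →+* ℂ) → ℂ) : Prop :=
  ∃ b, IsFactors D F m b ∧ ∀ τ, ℓ τ = gam D m ^ finrank K F * ∏' w, (τ (b w))⁻¹

variable {D : Data K E} {m : ℤ}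

theorem one_lt_norm (v : HeightOneSpectrum (𝓞 K)) : 1 < Ideal.absNorm v.asIdeal := by
  obtain ⟨p, k, hp, hk, h⟩ := Pool.Agent.Q5.DP.exists_pk v
  rw [h]
  exact Nat.one_lt_pow hk.ne' hp.one_lt

theorem bound {q k : ℕ} (hq : 1 < q) (hwt : D.wt + 3 ≤ 2 * m) {n : ℕ} {α : Fin n → ℂ}
    (h : ∀ j, ‖α j‖ = (q : ℝ) ^ ((D.wt : ℝ) / 2)) :
    ‖∏ j, (1 - α j ^ k * ((q ^ k : ℕ) : ℂ) ^ (-m)) - 1‖ ≤
      (n * Real.exp n) * ((q ^ k : ℕ) : ℝ) ^ (-(3 / 2) : ℝ) := by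
  have hp1 : (1 : ℝ) ≤ q := by exact_mod_cast hq.le
  have hp0 : (0 : ℝ) < q := by linarith
  have hpk : (1 : ℝ) ≤ ((q ^ k : ℕ) : ℝ) := by
    push_cast
    exact one_le_pow₀ hp1
  have hpk0 : (0 : ℝ) < ((q ^ k : ℕ) : ℝ) := by linarith
  have h1 : ∀ j, ‖(α j ^ k * ((q ^ k : ℕ) : ℂ) ^ (-m)) * 1‖ =
      ((q ^ k : ℕ) : ℝ) ^ ((D.wt : ℝ) / 2 - m) := by
    intro j
    rw [mul_one, norm_mul, norm_pow, h j, norm_zpow, Complex.norm_natCast, ← Real.rpow_natCast,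
      ← Real.rpow_mul hp0.le, sub_eq_add_neg, Real.rpow_add hpk0]
    congr 1
    · rw [Nat.cast_pow, ← Real.rpow_natCast, ← Real.rpow_mul hp0.le, mul_comm]
    · rw [← Real.rpow_intCast]
      push_cast
      rfl
  have hwt' : (D.wt : ℝ) / 2 - m ≤ -(3 / 2) := by
    have : (D.wt : ℝ) + 3 ≤ 2 * m := by exact_mod_cast hwt
    linarith
  have h2 : ((q ^ k : ℕ) : ℝ) ^ ((D.wt : ℝ) / 2 - m) ≤ ((q ^ k : ℕ) : ℝ) ^ (-(3 / 2) : ℝ) :=
    Real.rpow_le_rpow_of_exponent_le hpk hwt'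
  have h3 : ((q ^ k : ℕ) : ℝ) ^ (-(3 / 2) : ℝ) ≤ 1 :=
    Real.rpow_le_one_of_one_le_of_nonpos hpk (by norm_num)
  have h4 := Pool.Agent.Q5.VL.prod_bound
    (α := fun j => α j ^ k * ((q ^ k : ℕ) : ℂ) ^ (-m)) (z := 1) h1 (h2.trans h3)
  simp only [mul_one] at h4
  refine h4.trans ?_
  have : (0 : ℝ) ≤ n * Real.exp n := mul_nonneg (Nat.cast_nonneg n) (Real.exp_pos _).le
  exact mul_le_mul_of_nonneg_left h2 this

theorem prod_ne {q k : ℕ} (hq : 1 < q) (hk : 0 < k) (hwt : D.wt + 3 ≤ 2 * m) {n : ℕ}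
    {α : Fin n → ℂ} (h : ∀ j, ‖α j‖ = (q : ℝ) ^ ((D.wt : ℝ) / 2)) :
    ∏ j, (1 - α j ^ k * ((q ^ k : ℕ) : ℂ) ^ (-m)) ≠ 0 := by
  refine Finset.prod_ne_zero_iff.2 fun j _ h0 => ?_
  have hp1 : (1 : ℝ) < q := by exact_mod_cast hq
  have hp0 : (0 : ℝ) < q := by linarith
  have hpk : (1 : ℝ) < ((q ^ k : ℕ) : ℝ) := by
    push_cast
    exact one_lt_pow₀ hp1 hk.ne'
  have hpk0 : (0 : ℝ) < ((q ^ k : ℕ) : ℝ) := by linarith
  have h1 : α j ^ k * ((q ^ k : ℕ) : ℂ) ^ (-m) = 1 := (sub_eq_zero.1 h0).symm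
  have h2 : ‖α j ^ k * ((q ^ k : ℕ) : ℂ) ^ (-m)‖ = ((q ^ k : ℕ) : ℝ) ^ ((D.wt : ℝ) / 2 - m) := by
    rw [norm_mul, norm_pow, h j, norm_zpow, Complex.norm_natCast, ← Real.rpow_natCast,
      ← Real.rpow_mul hp0.le, sub_eq_add_neg, Real.rpow_add hpk0]
    congr 1
    · rw [Nat.cast_pow, ← Real.rpow_natCast, ← Real.rpow_mul hp0.le, mul_comm]
    · rw [← Real.rpow_intCast]
      push_cast
      rfl
  rw [h1, norm_one] at h2
  have h3 : ((q ^ k : ℕ) : ℝ) ^ ((D.wt : ℝ) / 2 - m) < 1 := by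
    apply Real.rpow_lt_one_of_one_lt_of_neg hpk
    have : (D.wt : ℝ) + 3 ≤ 2 * m := by exact_mod_cast hwt
    linarith
  linarith

/-- the values of the Euler factors -/
theorem eval_eq {v : HeightOneSpectrum (𝓞 K)} {τ : E →+* ℂ} {α : Fin D.rank → ℂ}
    (h : ∀ f, (D.P v f).map τ = ∏ j, (1 - Polynomial.C (α j ^ f) * Polynomial.X)) (f N : ℕ)
    (m : ℤ) : τ ((D.P v f).eval ((N : E) ^ (-m))) = ∏ j, (1 - α j ^ f * (N : ℂ) ^ (-m)) := by
  have h5 := congrArg (fun Q : Polynomial ℂ => Q.eval ((N : ℂ) ^ (-m))) (h f)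
  simp only [Polynomial.eval_prod, Polynomial.eval_sub, Polynomial.eval_one, Polynomial.eval_mul,
    Polynomial.eval_C, Polynomial.eval_X] at h5
  rw [← h5, Polynomial.eval_map]
  have h6 : (N : ℂ) ^ (-m) = τ ((N : E) ^ (-m)) := by
    rw [map_zpow₀, map_natCast]
  rw [h6, Polynomial.eval₂_hom]

variable {F : Type} [Field F] [NumberField F] [Algebra K F]

theorem good (hD : D.Pure) : ∀ᶠ w : HeightOneSpectrum (𝓞 F) in cofinite, ∀ τ : E →+* ℂ,
    ∃ α : Fin D.rank → ℂ,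
    (∀ j, ‖α j‖ = (Ideal.absNorm (w.under (𝓞 K)).asIdeal : ℝ) ^ ((D.wt : ℝ) / 2)) ∧
    ∀ f, (D.P (w.under (𝓞 K)) f).map τ = ∏ j, (1 - Polynomial.C (α j ^ f) * Polynomial.X) := by
  unfold Data.Pure at hD
  rw [eventually_cofinite] at hD ⊢
  have h1 : (⋃ v ∈ {v : HeightOneSpectrum (𝓞 K) | ¬ ∀ τ : E →+* ℂ, ∃ α : Fin D.rank → ℂ,
      (∀ j, ‖α j‖ = (Ideal.absNorm v.asIdeal : ℝ) ^ ((D.wt : ℝ) / 2)) ∧
      ∀ f, (D.P v f).map τ = ∏ j, (1 - Polynomial.C (α j ^ f) * Polynomial.X)},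
      {w : HeightOneSpectrum (𝓞 F) | w.under (𝓞 K) = v}).Finite :=
    Set.Finite.biUnion hD fun v _ => above_finite v
  refine h1.subset fun w hw => ?_
  simp only [Set.mem_iUnion]
  exact ⟨w.under (𝓞 K), hw, rfl⟩

/-- the residue degree -/
theorem norm_pow' (w : HeightOneSpectrum (𝓞 F)) :
    Ideal.absNorm w.asIdeal = Ideal.absNorm (w.under (𝓞 K)).asIdeal ^ rdeg K w :=
  absNorm_rdeg (K := K) w

theorem rdeg_pos' (w : HeightOneSpectrum (𝓞 F)) : 0 < rdeg K w := by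
  rcases Nat.eq_zero_or_pos (rdeg K w) with h | h
  · exfalso
    have h1 := norm_pow' (K := K) w
    rw [h, pow_zero] at h1
    have := one_lt_norm w
    omega
  · exact h

theorem exists_factors (hD : D.Pure) (hwt : D.wt + 3 ≤ 2 * m) : ∃ b, IsFactors D F m b := by
  refine ⟨fun w => if (D.P (w.under (𝓞 K)) (rdeg K w)).eval
    ((Ideal.absNorm w.asIdeal : E) ^ (-m)) = 0 then 1 else (D.P (w.under (𝓞 K)) (rdeg K w)).eval
    ((Ideal.absNorm w.asIdeal : E) ^ (-m)), ?_, fun w => ?_⟩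
  · filter_upwards [good (F := F) hD] with w hw f hf
    have hf' : f = rdeg K w := by
      rw [norm_pow' (K := K) w] at hf
      exact (Nat.pow_right_injective (one_lt_norm (w.under (𝓞 K))) hf).symm
    subst hf'
    rw [if_neg]
    intro h0
    obtain ⟨τ⟩ : Nonempty (E →+* ℂ) := inferInstance
    obtain ⟨α, h1, h2⟩ := hw τ
    have h3 := eval_eq h2 (rdeg K w) (Ideal.absNorm w.asIdeal) m
    rw [h0, map_zero, norm_pow' (K := K) w] at h3
    exact prod_ne (one_lt_norm _) (rdeg_pos' w) hwt h1 h3.symm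
  · change (if _ then _ else _) ≠ (0 : E)
    split_ifs with h
    · exact one_ne_zero
    · exact h

/-- the convergence -/
theorem summable_factors (hD : D.Pure) (hwt : D.wt + 3 ≤ 2 * m)
    {b : HeightOneSpectrum (𝓞 F) → E} (hb : IsFactors D F m b) (τ : E →+* ℂ) :
    Summable fun v => -Complex.log (τ (b v)) := by
  have h1 : Summable fun v : HeightOneSpectrum (𝓞 F) => (D.rank * Real.exp D.rank) *
      (Ideal.absNorm v.asIdeal : ℝ) ^ (-(3 / 2) : ℝ) :=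
    (Pool.Agent.H921R2.TatePole.nm_summable (K := F) (x := 3 / 2) (by norm_num)).mul_left _
  have h2 : Summable fun v : HeightOneSpectrum (𝓞 F) => τ (b v) - 1 := by
    refine Summable.of_norm_bounded_eventually h1 ?_
    filter_upwards [good (F := F) hD, hb.1] with w hw hbw
    obtain ⟨α, h3, h4⟩ := hw τ
    rw [hbw _ (norm_pow' (K := K) w), eval_eq h4, norm_pow' (K := K) w]
    exact bound (one_lt_norm _) hwt h3
  have h3 := Complex.summable_log_one_add_of_summable h2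
  simp only [add_sub_cancel] at h3
  exact h3.neg

theorem value_exp (hD : D.Pure) (hwt : D.wt + 3 ≤ 2 * m)
    {b : HeightOneSpectrum (𝓞 F) → E} (hb : IsFactors D F m b) (τ : E →+* ℂ) :
    ∏' v, (τ (b v))⁻¹ = Complex.exp (∑' v, -Complex.log (τ (b v))) := by
  rw [← (summable_factors hD hwt hb τ).hasSum.cexp.tprod_eq]
  refine tprod_congr fun w => ?_
  change _ = Complex.exp (-Complex.log (τ (b w)))
  rw [Complex.exp_neg, Complex.exp_log]
  intro h0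
  exact hb.2 w (τ.injective (by rw [h0, map_zero]))

end

end Pool.Agent.Q7.IM
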